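import Mathlib
import Pool.Agent.H52.TBG

set_option autoImplicit false
open Pool.Agent.H52.TBG

namespace Pool.Agent.Results.MP_b83ca4_nt.LeastTwo

/-- The least number of rotated and translated triangular lattices forming a dense forest is 2. -/
theorem result :
    IsLeast {k : ℕ | 1 ≤ k ∧ ∃ (x : Fin k → ℂ) (θ : Fin k → ℝ), DenseForest (TBG x θ)} 2 := by
  constructor
  · obtain ⟨c, hc⟩ := (Bad_countable.dense_compl ℝ).nonempty
    exact ⟨by norm_num, 0, ![c, 0], forest_of_not_bad _ _ (by simpa using hc)⟩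
  · rintro k ⟨h1, x, θ, h⟩
    by_contra hlt
    obtain rfl : k = 1 := by omega
    refine not_forest x θ (θ 0) 1 one_pos (fun i => ?_) h
    rw [Subsingleton.elim i 0, inv_mul_cancel₀ (Complex.exp_ne_zero _), mul_one]
    exact Lam_int 1

end Pool.Agent.Results.MP_b83ca4_nt.LeastTwo
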