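import Mathlib
import Pool.Agent.H52.TBG

set_option autoImplicit false
open Pool.Agent.H52.TBG

namespace Pool.Agent.Results.MP_b83ca4_nt.NeverDiscrete

/-- No finite union of rotated and translated triangular lattices is a uniformly discrete dense
forest. -/
theorem result (k : ℕ) (x : Fin k → ℂ) (θ : Fin k → ℝ) :
    ¬ (UnifDiscrete (TBG x θ) ∧ DenseForest (TBG x θ)) :=
  never x θ

end Pool.Agent.Results.MP_b83ca4_nt.NeverDiscrete
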